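import Pool.Agent.helper17.GFG.Spec

/-!
# Project GFG (MP_561ff4_al), row K52: type `-2`
-/

set_option autoImplicit false

open Finset

namespace Pool.Agent.EXT

open Pool.Agent.EXC

theorem K52 (hPAR : PAR_stmt) (hKCJ : KCJ_stmt) (hKRD : KRD_stmt) (hKYB : KYB_stmt) (hKD2 : KD2_stmt) (hKFG : KFG_stmt) (hKXC : KXC_stmt)
    (_hSGR : SGR_stmt) : K52_stmt := by
  intro K _ _ τ hτ a b y hT hY
  have hth : LR th := ⟨by decide +kernel, by decide +kernel⟩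
  have hth' : LR (-th) := ⟨by decide +kernel, by decide +kernel⟩
  have h2 : ip C6 th (-th) = -2 := by decide +kernel
  have hga : ∀ i, 0 ≤ ip C6 (ga3 i) (-th) := by decide +kernel
  obtain ⟨g, hg, κ, hκ, hκ0, hg1, hg2⟩ := hPAR K τ hτ a b (-2) hT th (-th) hth hth' h2
  obtain ⟨c1, c2, c3⟩ := hKCJ K τ hτ
  have hCJ : CJ τ y (XG C6 th 1 * XG C6 (-th) κ) :=
    c1 a b (-2) y hT hY g hg th (-th) hth hth' 1 κ (map_one τ) hκ one_ne_zero hκ0 (by rw [hg1, one_smul]) hg2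
  have hYG : XG C6 th (1 : K) * XG C6 (-th) κ ∈ GS τ := mul_mem (c3 th hth 1 (map_one τ)) (c3 (-th) hth' κ hκ)
  have hKY := hKYB K τ hτ κ hκ hκ0
  choose h hh hhP using hKY
  obtain ⟨g5, hg5, hfin⟩ := hKFG K τ hτ 1 (map_one τ) one_ne_zero
  have hXP : XP6 (1 : K) th 1 = XG C6 th 1 := (hKXC K 1 one_ne_zero th th hth.1 hth.1 1 1).2.2.2.2.2
  generalize hYdef : XG C6 th (1 : K) * XG C6 (-th) κ = Y at hCJ hYG hhP
  refine hKRD K τ hτ y ![Y, h 0 * Y * (h 0)⁻¹, h 1 * Y * (h 1)⁻¹, h 2 * Y * (h 2)⁻¹, g5 * Y * g5⁻¹] ?_ ?_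
  · intro i
    fin_cases i
    · exact ⟨hYG, hCJ⟩
    · exact ⟨mul_mem (mul_mem (hh 0) hYG) (inv_mem (hh 0)), c2 y Y hYG hCJ _ (hh 0)⟩
    · exact ⟨mul_mem (mul_mem (hh 1) hYG) (inv_mem (hh 1)), c2 y Y hYG hCJ _ (hh 1)⟩
    · exact ⟨mul_mem (mul_mem (hh 2) hYG) (inv_mem (hh 2)), c2 y Y hYG hCJ _ (hh 2)⟩
    · exact ⟨mul_mem (mul_mem hg5 hYG) (inv_mem hg5), c2 y Y hYG hCJ _ hg5⟩
  · intro H hH
    have k0 : Y ∈ H := hH 0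
    have k1 : h 0 * Y * (h 0)⁻¹ ∈ H := hH 1
    have k2 : h 1 * Y * (h 1)⁻¹ ∈ H := hH 2
    have k3 : h 2 * Y * (h 2)⁻¹ ∈ H := hH 3
    have k4 : g5 * Y * g5⁻¹ ∈ H := hH 4
    have hk : ∀ k : Fin 3, h k * Y * (h k)⁻¹ ∈ H := by
      intro k
      fin_cases k
      exacts [k1, k2, k3]
    have hP : ∀ k : Fin 3, XG C6 (th + cc3 k) (1 : K) * XG C6 (-sr 1) 1 ∈ H := by
      intro k
      rw [← hhP k]
      have e : Y * h k * Y⁻¹ * (h k)⁻¹ = Y * (h k * Y * (h k)⁻¹)⁻¹ := by group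
      rw [e]
      exact mul_mem k0 (inv_mem (hk k))
    obtain ⟨d1, d2⟩ := hKD2 K κ hκ0 H (by rw [hYdef]; exact k0) hP
    refine hfin (-th) hth' hga 1 κ (Or.inl rfl) H d1 d2 ?_
    rw [hXP, hYdef]
    exact k4

end Pool.Agent.EXT
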