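import Pool.Agent.helper17.GFG.Spec

/-!
# Project GFG (MP_561ff4_al), row KCJ: conjugates
-/

set_option autoImplicit false

open Finset

namespace Pool.Agent.EXT

open Pool.Agent.EXC

theorem KCJ (hGFX : GFX_stmt) (_hESF : ESF_stmt) (hTFS : TFS_stmt) (hSGR : SGR_stmt) : KCJ_stmt := by
  intro K _ τ hτ
  have hxs : ∀ u, ip C6 u u = 2 → ∀ (s : K) (v : Lm C6 K), xe C6 (s • (E C6 u : Lm C6 K)) 1 v = XG C6 u s v := by
    intro u hu s v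
    have hEXF := f_EXF 6 C6 K hb6
    have hX := (hEXF.2.2.1 _ (hEXF.2.1 u hu)).1
    rw [((f_XAU 6 C6 K _ hX).2.2.2 s).2 1 v, mul_one, (g_XG K u hu s).1 v]
  refine ⟨?_, ?_, ?_⟩
  · intro a b m y hT hY g hg u v hu hv s s' hs hs' hs0 hs0' hga hgb
    obtain ⟨hExa, hExb, -⟩ := hTFS K τ hτ a b m hT
    obtain ⟨g1, h1, hg1, hh1, rfl⟩ := hY
    obtain ⟨f, hf, hfg⟩ := (hGFX K τ hτ).1 g hg
    have ha := ((hGFX K τ hτ).2 a hExa).2.2.2.2 f hf g hg hfg 1 _ hg1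
    have hb := ((hGFX K τ hτ).2 b hExb).2.2.2.2 f hf g hg hfg 1 _ hh1
    refine ⟨⟨f, hf⟩, fun w => ?_⟩
    have e1 : ((((⟨f, hf⟩ : GF τ) * (g1 * h1) * (⟨f, hf⟩ : GF τ)⁻¹ : GF τ) : Equiv.Perm (LT τ)) w : Lm C6 K) =
        ((f * (g1 : Equiv.Perm (LT τ)) * f⁻¹) ((f * (h1 : Equiv.Perm (LT τ)) * f⁻¹) w) : LT τ) := by
      have e2 : (((⟨f, hf⟩ : GF τ) * (g1 * h1) * (⟨f, hf⟩ : GF τ)⁻¹ : GF τ) : Equiv.Perm (LT τ)) =
          (f * (g1 : Equiv.Perm (LT τ)) * f⁻¹) * (f * (h1 : Equiv.Perm (LT τ)) * f⁻¹) := by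
        rw [Subgroup.coe_mul, Subgroup.coe_mul, Subgroup.coe_mul, Subgroup.coe_inv]
        group
      rw [e2]
      rfl
    rw [e1, ha _, hb w, hga, hgb, hxs u hu.1, hxs v hv.1]
    rfl
  · rintro y k hk ⟨f, hf⟩ h hh
    obtain ⟨fh, hfh, hfhh⟩ := (hGFX K τ hτ).1 h hh
    refine ⟨⟨fh, hfh⟩ * f, fun w => ?_⟩
    have e2 : (((⟨fh, hfh⟩ : GF τ) * f * y * ((⟨fh, hfh⟩ : GF τ) * f)⁻¹ : GF τ) : Equiv.Perm (LT τ)) =
        fh * ((f * y * f⁻¹ : GF τ) : Equiv.Perm (LT τ)) * fh⁻¹ := by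
      rw [Subgroup.coe_mul, Subgroup.coe_mul, Subgroup.coe_mul, Subgroup.coe_inv, Subgroup.coe_mul, Subgroup.coe_mul,
        Subgroup.coe_mul, Subgroup.coe_inv]
      group
    rw [e2]
    show ((fh (((f * y * f⁻¹ : GF τ) : Equiv.Perm (LT τ)) (fh⁻¹ w)) : LT τ) : Lm C6 K) = _
    rw [hfhh, hf]
    have e3 : h ((fh⁻¹ w : LT τ) : Lm C6 K) = w := by
      rw [← hfhh]
      exact congrArg Subtype.val (fh.apply_symm_apply w)
    have e4 : ((fh⁻¹ w : LT τ) : Lm C6 K) = h⁻¹ (w : Lm C6 K) := by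
      rw [← e3]
      exact (h.symm_apply_apply _).symm
    rw [e4]
    rfl
  · intro u hu s hs
    obtain ⟨g, hg, hgX⟩ := (hSGR K τ hτ).2.1 u s hu hs
    have e : XG C6 u s = g := by
      refine LinearEquiv.ext fun x => ?_
      rw [hgX x, (g_XG K u hu.1 s).1 x]
    rw [e]
    exact hg

end Pool.Agent.EXT
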