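import Pool.Agent.helper17.GFG.Spec

/-!
# Project GFG (MP_561ff4_al), row KGN: from the simple roots of the long `D₄` to all long roots
-/

set_option autoImplicit false

open Finset

namespace Pool.Agent.EXT

open Pool.Agent.EXC

theorem KGN_list : ∀ v ∈ RL, pv v = v → ∃ k, v = lt7 k := by decide +kernel

theorem KGN_root : ∀ k, ip C6 (lt7 k) (lt7 k) = 2 := by decide +kernel

theorem KGN (hKXC : KXC_stmt) (hLST : LST_stmt) : KGN_stmt := by
  intro K _ c hc H hH β hβ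
  have hX := hKXC K c hc
  have hstep : ∀ α β : Fin 6 → ℤ, ip C6 α α = 2 → ip C6 β β = 2 → ip C6 α β = -1 → XP6 c α (1 : K) ∈ H → XP6 c β (1 : K) ∈ H →
      XP6 c (α + β) (1 : K) ∈ H := by
    intro α β hα hβ hαβ h1 h2
    have hγ : ip C6 (α + β) (α + β) = 2 := (add_root_iff hα hβ).2 hαβ
    have h4 := (hX α β hα hβ 1 1).2.2.2.1 hαβ
    have h5 : XP6 c (α + β) ((1 : K) * 1 * (sg C6 α β : K)) = (XP6 c β 1)⁻¹ * (XP6 c α 1 * XP6 c β 1 * (XP6 c α 1)⁻¹) := by
      rw [h4, inv_mul_cancel_left]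
    have h6 : XP6 c (α + β) ((1 : K) * 1 * (sg C6 α β : K)) ∈ H := by
      rw [h5]
      exact mul_mem (inv_mem h2) (mul_mem (mul_mem h1 h2) (inv_mem h1))
    rcases sg_cases C6 α β with he | he
    · rw [he, Int.cast_one, mul_one, mul_one] at h6
      exact h6
    · rw [he, Int.cast_neg, Int.cast_one, mul_one, one_mul, (hX (α + β) (α + β) hγ hγ 1 1).2.2.2.2.1] at h6
      exact inv_mem_iff.1 h6
  have hk : ∀ i j k : Fin 24, ip C6 (lt7 i) (lt7 j) = -1 ∧ lt7 i + lt7 j = lt7 k → XP6 c (lt7 i) (1 : K) ∈ H → XP6 c (lt7 j) (1 : K) ∈ H →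
      XP6 c (lt7 k) (1 : K) ∈ H := by
    rintro i j k ⟨h1, h2⟩ h3 h4
    rw [← h2]
    exact hstep _ _ (KGN_root i) (KGN_root j) h1 h3 h4
  have m1 : XP6 c (lt7 1) (1 : K) ∈ H := hH 0
  have m13 : XP6 c (lt7 13) (1 : K) ∈ H := hH 1
  have m0 : XP6 c (lt7 0) (1 : K) ∈ H := hH 2
  have m12 : XP6 c (lt7 12) (1 : K) ∈ H := hH 3
  have m3 : XP6 c (lt7 3) (1 : K) ∈ H := hH 4
  have m15 : XP6 c (lt7 15) (1 : K) ∈ H := hH 5
  have m6 : XP6 c (lt7 6) (1 : K) ∈ H := hH 6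
  have m18 : XP6 c (lt7 18) (1 : K) ∈ H := hH 7
  have m2 := hk 0 1 2 (by decide +kernel) m0 m1
  have m4 := hk 3 1 4 (by decide +kernel) m3 m1
  have m5 := hk 4 0 5 (by decide +kernel) m4 m0
  have m7 := hk 6 1 7 (by decide +kernel) m6 m1
  have m8 := hk 7 0 8 (by decide +kernel) m7 m0
  have m9 := hk 7 3 9 (by decide +kernel) m7 m3
  have m10 := hk 9 0 10 (by decide +kernel) m9 m0
  have m11 := hk 10 1 11 (by decide +kernel) m10 m1
  have m14 := hk 12 13 14 (by decide +kernel) m12 m13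
  have m16 := hk 15 13 16 (by decide +kernel) m15 m13
  have m17 := hk 16 12 17 (by decide +kernel) m16 m12
  have m19 := hk 18 13 19 (by decide +kernel) m18 m13
  have m20 := hk 19 12 20 (by decide +kernel) m19 m12
  have m21 := hk 19 15 21 (by decide +kernel) m19 m15
  have m22 := hk 21 12 22 (by decide +kernel) m21 m12
  have m23 := hk 22 13 23 (by decide +kernel) m22 m13
  have key : ∀ k : Fin 24, XP6 c (lt7 k) (1 : K) ∈ H := by
    intro k
    fin_cases k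
    exacts [m0, m1, m2, m3, m4, m5, m6, m7, m8, m9, m10, m11, m12, m13, m14, m15, m16, m17, m18, m19, m20, m21, m22, m23]
  obtain ⟨k, rfl⟩ := KGN_list β ((hLST β).1 hβ.1) hβ.2
  exact key k

end Pool.Agent.EXT
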