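import Pool.Agent.helper17.GFG.Spec

/-!
# Project GFG (MP_561ff4_al), row KPR: representatives of the pairs of type `0`
-/

set_option autoImplicit false

open Finset

namespace Pool.Agent.EXT

open Pool.Agent.EXC

theorem KPR_list : ∀ v ∈ RL, pv v = v → ∃ k, v = lt7 k := by decide +kernel

theorem KPR_LR : ∀ k, ip C6 (lt7 k) (lt7 k) = 2 ∧ pv (lt7 k) = lt7 k := by decide +kernel

theorem KPR_ex : ∀ i j : Fin 24, ip C6 (lt7 i) (lt7 j) = 0 → ∃ k l : Fin 24, (ip C6 (lt7 i) (lt7 k) = 1 ∧ ip C6 (lt7 j) (lt7 k) = 1) ∧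
    ip C6 (lt7 i) (lt7 l) = 1 ∧ ip C6 (lt7 j) (lt7 l) = -1 := by
  have h : ∀ i j : Fin 24, ip C6 (lt7 i) (lt7 j) = 0 → (∃ k : Fin 24, ip C6 (lt7 i) (lt7 k) = 1 ∧ ip C6 (lt7 j) (lt7 k) = 1) ∧
      ∃ l : Fin 24, ip C6 (lt7 i) (lt7 l) = 1 ∧ ip C6 (lt7 j) (lt7 l) = -1 := by decide +kernel
  intro i j hij
  obtain ⟨⟨k, hk⟩, l, hl⟩ := h i j hij
  exact ⟨k, l, hk, hl⟩

theorem KPR (hPAR : PAR_stmt) (hWST : WST_stmt) (hWPS : WPS_stmt) (hTOR : TOR_stmt) (hLST : LST_stmt) (_hRTF : RTF_stmt) : KPR_stmt := by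
  intro K _ τ hτ a b hab
  have hth : LR th := ⟨by decide +kernel, by decide +kernel⟩
  have hs3 : LR (sr 3) := ⟨by decide +kernel, by decide +kernel⟩
  have h03 : ip C6 th (sr 3) = 0 := by decide +kernel
  obtain ⟨g, hg, κ, hκ, hκ0, hga, hgb⟩ := hPAR K τ hτ a b 0 hab th (sr 3) hth hs3 h03
  refine ⟨κ, hκ, hκ0, ?_⟩
  rintro u v hu hv huv ⟨m, hm⟩
  obtain ⟨g₁, hg₁, s, s', hs, hs', h1, h2⟩ := hWPS K τ hτ th (sr 3) u v hth.1 hs3.1 (hWST.1 th (sr 3) u v hth hs3 hu hv (by rw [h03, huv]))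
  obtain ⟨i, rfl⟩ := KPR_list u ((hLST u).1 hu.1) hu.2
  obtain ⟨j, rfl⟩ := KPR_list v ((hLST v).1 hv.1) hv.2
  obtain ⟨k, l, ⟨e1, e2⟩, e3, e4⟩ := KPR_ex i j huv
  have ht : ∀ z : ℤ, τ (κ ^ z) = κ ^ z := fun z => by rw [map_zpow₀, hκ]
  have ht0 : ∀ z : ℤ, κ ^ z ≠ 0 := fun z => zpow_ne_zero z hκ0
  obtain ⟨x, hx, hx1⟩ := hTOR K τ hτ (lt7 k) (KPR_LR k) (κ ^ m) (ht _) (ht0 _)
  obtain ⟨y, hy, hy1⟩ := hTOR K τ hτ (lt7 l) (KPR_LR l) (κ ^ (ch6 (lt7 i) - m)) (ht _) (ht0 _)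
  have xu := hx1 (lt7 i) hu.1
  have xv := hx1 (lt7 j) hv.1
  have yu := hy1 (lt7 i) hu.1
  have yv := hy1 (lt7 j) hv.1
  rw [e1, zpow_one] at xu
  rw [e2, zpow_one] at xv
  rw [e3, zpow_one] at yu
  rw [e4, ← zpow_mul] at yv
  have hsK : ∀ s : ℤ, (s = 1 ∨ s = -1) → ((s : K) = 1 ∨ (s : K) = -1) := by
    rintro s (rfl | rfl) <;> simp
  refine ⟨x * y * g₁ * g, mul_mem (mul_mem (mul_mem hx hy) hg₁) hg, (s : K), (s' : K), hsK s hs, hsK s' hs', ?_, ?_⟩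
  · show x (y (g₁ (g a))) = _
    rw [hga, h1, map_smul, yu, map_smul, map_smul, xu, smul_smul, smul_smul, mul_assoc, ← zpow_add₀ hκ0]
    have : ch6 (lt7 i) - m + m = ch6 (lt7 i) := by ring
    rw [this]
  · show x (y (g₁ (g b))) = _
    rw [hgb]
    simp only [map_smul, h2, yv, xv, smul_smul]
    congr 1
    have h3 : κ ^ ((ch6 (lt7 i) - m) * -1) * κ ^ m = κ ^ (ch6 (lt7 j) - 1) := by
      rw [← zpow_add₀ hκ0]
      congr 1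
      linarith
    have h4 : κ ^ (ch6 (lt7 j)) = κ * κ ^ (ch6 (lt7 j) - 1) := by
      rw [← zpow_one_add₀ hκ0]
      congr 1
      ring
    rw [h4, ← h3]
    ring

end Pool.Agent.EXT
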