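import Pool.Agent.helper17.GFG.Spec
import Pool.Agent.helper75.EXG.GSN

/-!
# Project GFG (MP_561ff4_al), row KSN: soundness of the closure with signs (port of KSN)
-/

set_option autoImplicit false

open Finset

namespace Pool.Agent.EXT

open Pool.Agent.EXC

theorem KSN_split {K : Type} [Field K] (P₁ P₂ : List ((Fin 6 → ℤ) × Bool)) (u : Fin 6 → ℤ) :
    ∀ l : List ((Fin 6 → ℤ) × K), OK6 (P₁ ++ (u, true) :: P₂) l →
      ∃ (l₁ l₂ : List ((Fin 6 → ℤ) × K)) (e : K), l = l₁ ++ (u, e) :: l₂ ∧ OK6 P₁ l₁ ∧ OK6 P₂ l₂ ∧ (e = 1 ∨ e = -1) := by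
  induction P₁ with
  | nil =>
    intro l h
    unfold OK6 at h
    rw [List.nil_append, List.forall₂_cons_left_iff] at h
    obtain ⟨b, l', hb, hl, rfl⟩ := h
    obtain ⟨b1, b2⟩ := b
    refine ⟨[], l', b2, ?_, List.Forall₂.nil, hl, hb.2 rfl⟩
    have : b1 = u := hb.1
    rw [this, List.nil_append]
  | cons p P₁ ih =>
    intro l h
    unfold OK6 at h
    rw [List.cons_append, List.forall₂_cons_left_iff] at h
    obtain ⟨b, l', hb, hl, rfl⟩ := h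
    obtain ⟨l₁, l₂, e, rfl, h1, h2, h3⟩ := ih l' hl
    exact ⟨b :: l₁, l₂, e, rfl, List.Forall₂.cons hb h1, h2, h3⟩

theorem KSN_mem {K : Type} [Field K] (P : List ((Fin 6 → ℤ) × Bool)) (l : List ((Fin 6 → ℤ) × K)) (h : OK6 P l) :
    ∀ q ∈ l, ∃ p ∈ P, q.1 = p.1 ∧ (p.2 = true → q.2 = 1 ∨ q.2 = -1) := by
  induction h with
  | nil => intro q hq; exact absurd hq (List.not_mem_nil)
  | cons hb _ ih =>
    intro q hq
    rcases List.mem_cons.1 hq with rfl | hq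
    · exact ⟨_, List.mem_cons_self, hb⟩
    · obtain ⟨p, hp, h1⟩ := ih q hq
      exact ⟨p, List.mem_cons_of_mem _ hp, h1⟩

theorem KSN (hKXC : KXC_stmt) : KSN_stmt := by
  intro K _ c hc PL H hroot hPL r hr
  have hX := hKXC K c hc
  have hadd : ∀ α, ip C6 α α = 2 → ∀ s t : K, XP6 c α (s + t) = XP6 c α s * XP6 c α t := fun α hα s t =>
    (hX α α hα hα s t).1
  have hzero : ∀ α, ip C6 α α = 2 → XP6 c α (0 : K) = 1 := fun α hα => (hX α α hα hα 0 0).2.1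
  have hcom : ∀ α β, ip C6 α α = 2 → ip C6 β β = 2 → 0 ≤ ip C6 α β → ∀ s t : K,
      Commute (XP6 c α s) (XP6 c β t) := fun α β hα hβ h s t => (hX α β hα hβ s t).2.2.1 h
  have hinv : ∀ α, ip C6 α α = 2 → (XP6 c α (-1 : K)) = (XP6 c α (1 : K))⁻¹ := by
    intro α hα
    rw [eq_inv_iff_mul_eq_one, ← hadd α hα, neg_add_cancel, hzero α hα]
  have hone : ∀ α, ip C6 α α = 2 → ∀ e : K, (e = 1 ∨ e = -1) → XP6 c α e ∈ H → XP6 c α (1 : K) ∈ H := by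
    intro α hα e he h
    rcases he with h1 | h1
    · rwa [h1] at h
    · rw [h1, hinv α hα] at h
      exact (Subgroup.inv_mem_iff H).1 h
  have hone' : ∀ α, ip C6 α α = 2 → ∀ e : K, (e = 1 ∨ e = -1) → XP6 c α (1 : K) ∈ H → XP6 c α e ∈ H := by
    intro α hα e he h
    rcases he with h1 | h1
    · rwa [h1]
    · rw [h1, hinv α hα]
      exact H.inv_mem h
  have hsg : ∀ (e e' : K) (β γ : Fin 6 → ℤ), (e = 1 ∨ e = -1) → (e' = 1 ∨ e' = -1) →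
      (e * e' * ((sg C6 β γ : ℤ) : K) = 1 ∨ e * e' * ((sg C6 β γ : ℤ) : K) = -1) := by
    intro e e' β γ h1 h2
    rcases h1 with rfl | rfl <;> rcases h2 with rfl | rfl <;> rcases GSN_sg C6 K β γ with h | h <;> simp [h]
  -- products of lists
  have hprd : ∀ (P₁ P₂ : List ((Fin 6 → ℤ) × K)) (u : Fin 6 → ℤ) (e : K),
      pq6 c (P₁ ++ (u, e) :: P₂) = pq6 c P₁ * (XP6 c u e * pq6 c P₂) := by
    intro P₁ P₂ u e
    unfold pq6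
    rw [List.map_append, List.prod_append, List.map_cons, List.prod_cons]
  have hpc : ∀ (l : List ((Fin 6 → ℤ) × K)) (β : Fin 6 → ℤ) (s : K), (∀ p ∈ l, ip C6 p.1 p.1 = 2) →
      ip C6 β β = 2 → (∀ p ∈ l, 0 ≤ ip C6 p.1 β) → Commute (pq6 c l) (XP6 c β s) := by
    intro l β s h1 h2 h3
    unfold pq6
    refine Commute.list_prod_left _ _ fun x hx => ?_
    obtain ⟨p, hp, rfl⟩ := List.mem_map.1 hx
    exact hcom _ _ (h1 p hp) h2 (h3 p hp) _ _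
  have hpp : ∀ (l l' : List ((Fin 6 → ℤ) × K)), (∀ p ∈ l, ip C6 p.1 p.1 = 2) →
      (∀ p ∈ l', ip C6 p.1 p.1 = 2) → (∀ p ∈ l, ∀ q ∈ l', 0 ≤ ip C6 p.1 q.1) →
      Commute (pq6 c l) (pq6 c l') := by
    intro l l' h1 h2 h3
    have h4 : Commute (pq6 c l) ((l'.map fun p => XP6 c p.1 p.2).prod) := by
      refine Commute.list_prod_right _ _ fun x hx => ?_
      obtain ⟨p, hp, rfl⟩ := List.mem_map.1 hx
      exact hpc l p.1 _ h1 (h2 p hp) fun q hq => h3 q hq p hp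
    exact h4
  -- the parameters of a product
  have hsplit : ∀ (P₁ P₂ : List ((Fin 6 → ℤ) × Bool)) (u : Fin 6 → ℤ), (P₁ ++ (u, true) :: P₂) ∈ PL →
      ip C6 u u = 2 ∧ ∃ (l₁ l₂ : List ((Fin 6 → ℤ) × K)) (e : K), (e = 1 ∨ e = -1) ∧
        pq6 c l₁ * (XP6 c u e * pq6 c l₂) ∈ H ∧
        (∀ q ∈ l₁, ip C6 q.1 q.1 = 2 ∧ ∃ p ∈ P₁, q.1 = p.1 ∧ (p.2 = true → q.2 = 1 ∨ q.2 = -1)) ∧
        (∀ q ∈ l₂, ip C6 q.1 q.1 = 2 ∧ ∃ p ∈ P₂, q.1 = p.1 ∧ (p.2 = true → q.2 = 1 ∨ q.2 = -1)) := by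
    intro P₁ P₂ u h
    have h1 := hroot _ h
    obtain ⟨l, hl, hlH⟩ := hPL _ h
    obtain ⟨l₁, l₂, e, rfl, k1, k2, k3⟩ := KSN_split P₁ P₂ u l hl
    rw [hprd] at hlH
    refine ⟨h1 (u, true) (by simp), l₁, l₂, e, k3, hlH, fun q hq => ?_, fun q hq => ?_⟩
    · obtain ⟨p, hp, e1, e2⟩ := KSN_mem _ _ k1 q hq
      refine ⟨?_, p, hp, e1, e2⟩
      rw [e1]
      exact h1 p (by simp [hp])
    · obtain ⟨p, hp, e1, e2⟩ := KSN_mem _ _ k2 q hq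
      refine ⟨?_, p, hp, e1, e2⟩
      rw [e1]
      exact h1 p (by simp [hp])
  induction hr with
  | com P₁ P₂ Q₁ Q₂ u v w hP hQ h =>
    obtain ⟨huv, rfl, hp, hq⟩ := h
    obtain ⟨ru, l₁, l₂, e, he, hPH, a1, a2⟩ := hsplit _ _ _ hP
    obtain ⟨rv, m₁, m₂, e', he', hQH, b1, b2⟩ := hsplit _ _ _ hQ
    have rw' : ip C6 (u + v) (u + v) = 2 := (add_root_iff ru rv).2 huv
    refine ⟨rw', ?_⟩
    have c1 : ∀ q ∈ l₁, ∃ p ∈ P₁ ++ P₂, q.1 = p.1 := fun q h => by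
      obtain ⟨-, p, hp, h1, -⟩ := a1 q h
      exact ⟨p, List.mem_append_left _ hp, h1⟩
    have c2 : ∀ q ∈ l₂, ∃ p ∈ P₁ ++ P₂, q.1 = p.1 := fun q h => by
      obtain ⟨-, p, hp, h1, -⟩ := a2 q h
      exact ⟨p, List.mem_append_right _ hp, h1⟩
    have d1 : ∀ q ∈ m₁, ∃ p ∈ Q₁ ++ Q₂, q.1 = p.1 := fun q h => by
      obtain ⟨-, p, hp, h1, -⟩ := b1 q h
      exact ⟨p, List.mem_append_left _ hp, h1⟩
    have d2 : ∀ q ∈ m₂, ∃ p ∈ Q₁ ++ Q₂, q.1 = p.1 := fun q h => by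
      obtain ⟨-, p, hp, h1, -⟩ := b2 q h
      exact ⟨p, List.mem_append_right _ hp, h1⟩
    have rP1 : ∀ p ∈ l₁, ip C6 p.1 p.1 = 2 := fun p h => (a1 p h).1
    have rP2 : ∀ p ∈ l₂, ip C6 p.1 p.1 = 2 := fun p h => (a2 p h).1
    have rQ1 : ∀ p ∈ m₁, ip C6 p.1 p.1 = 2 := fun p h => (b1 p h).1
    have rQ2 : ∀ p ∈ m₂, ip C6 p.1 p.1 = 2 := fun p h => (b2 p h).1
    have kPQ : ∀ l m : List ((Fin 6 → ℤ) × K), (∀ q ∈ l, ∃ p ∈ P₁ ++ P₂, q.1 = p.1) → (∀ q ∈ m, ∃ p ∈ Q₁ ++ Q₂, q.1 = p.1) →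
        ∀ p ∈ l, ∀ q ∈ m, 0 ≤ ip C6 p.1 q.1 := by
      intro l m k1 k2 p hp' q hq'
      obtain ⟨p', hp'', e1⟩ := k1 p hp'
      obtain ⟨q', hq'', e2⟩ := k2 q hq'
      rw [e1, e2]
      exact (hp p' hp'').2.2 q' hq''
    have kPv : ∀ l : List ((Fin 6 → ℤ) × K), (∀ q ∈ l, ∃ p ∈ P₁ ++ P₂, q.1 = p.1) → ∀ p ∈ l, 0 ≤ ip C6 p.1 v := by
      intro l k1 p hp'
      obtain ⟨p', hp'', e1⟩ := k1 p hp'
      rw [e1]
      exact (hp p' hp'').1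
    have kPw : ∀ l : List ((Fin 6 → ℤ) × K), (∀ q ∈ l, ∃ p ∈ P₁ ++ P₂, q.1 = p.1) → ∀ p ∈ l, 0 ≤ ip C6 p.1 (u + v) := by
      intro l k1 p hp'
      obtain ⟨p', hp'', e1⟩ := k1 p hp'
      rw [e1]
      exact (hp p' hp'').2.1
    have kQu : ∀ m : List ((Fin 6 → ℤ) × K), (∀ q ∈ m, ∃ p ∈ Q₁ ++ Q₂, q.1 = p.1) → ∀ p ∈ m, 0 ≤ ip C6 p.1 u := by
      intro l k1 p hp'
      obtain ⟨p', hp'', e1⟩ := k1 p hp'
      rw [e1, ip_comm]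
      exact (hq p' hp'').1
    have kQw : ∀ m : List ((Fin 6 → ℤ) × K), (∀ q ∈ m, ∃ p ∈ Q₁ ++ Q₂, q.1 = p.1) → ∀ p ∈ m, 0 ≤ ip C6 p.1 (u + v) := by
      intro l k1 p hp'
      obtain ⟨p', hp'', e1⟩ := k1 p hp'
      rw [e1]
      exact (hq p' hp'').2
    exact hone _ rw' _ (hsg e e' u v he he') (GSN_key H ((hX u v ru rv e e').2.2.2.1 huv) (hpp l₁ m₁ rP1 rQ1 (kPQ _ _ c1 d1))
      (hpc l₁ v e' rP1 rv (kPv _ c1)) (hpp l₁ m₂ rP1 rQ2 (kPQ _ _ c1 d2)) (hpc l₁ _ _ rP1 rw' (kPw _ c1))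
      (hpp l₂ m₁ rP2 rQ1 (kPQ _ _ c2 d1)) (hpc l₂ v e' rP2 rv (kPv _ c2)) (hpp l₂ m₂ rP2 rQ2 (kPQ _ _ c2 d2))
      (hpc m₁ u e rQ1 ru (kQu _ d1)).symm (hpc m₂ u e rQ2 ru (kQu _ d2)).symm (hpc m₂ _ _ rQ2 rw' (kQw _ d2)) hPH hQH)
  | act r Q₁ Q₂ v w _ hQ h ih =>
    obtain ⟨hrv, rfl, hq⟩ := h
    obtain ⟨rr, hrH⟩ := ih
    obtain ⟨rv, m₁, m₂, e', he', hQH, b1, b2⟩ := hsplit _ _ _ hQ
    have rw' : ip C6 (r + v) (r + v) = 2 := (add_root_iff rr rv).2 hrv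
    refine ⟨rw', ?_⟩
    have d1 : ∀ q ∈ m₁, ∃ p ∈ Q₁ ++ Q₂, q.1 = p.1 := fun q h => by
      obtain ⟨-, p, hp, h1, -⟩ := b1 q h
      exact ⟨p, List.mem_append_left _ hp, h1⟩
    have d2 : ∀ q ∈ m₂, ∃ p ∈ Q₁ ++ Q₂, q.1 = p.1 := fun q h => by
      obtain ⟨-, p, hp, h1, -⟩ := b2 q h
      exact ⟨p, List.mem_append_right _ hp, h1⟩
    have rQ1 : ∀ p ∈ m₁, ip C6 p.1 p.1 = 2 := fun p h => (b1 p h).1
    have rQ2 : ∀ p ∈ m₂, ip C6 p.1 p.1 = 2 := fun p h => (b2 p h).1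
    have kQu : ∀ m : List ((Fin 6 → ℤ) × K), (∀ q ∈ m, ∃ p ∈ Q₁ ++ Q₂, q.1 = p.1) → ∀ p ∈ m, 0 ≤ ip C6 p.1 r := by
      intro l k1 p hp'
      obtain ⟨p', hp'', e1⟩ := k1 p hp'
      rw [e1, ip_comm]
      exact (hq p' hp'').1
    have kQw : ∀ m : List ((Fin 6 → ℤ) × K), (∀ q ∈ m, ∃ p ∈ Q₁ ++ Q₂, q.1 = p.1) → ∀ p ∈ m, 0 ≤ ip C6 p.1 (r + v) := by
      intro l k1 p hp'
      obtain ⟨p', hp'', e1⟩ := k1 p hp'
      rw [e1]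
      exact (hq p' hp'').2
    refine hone _ rw' _ (hsg 1 e' r v (Or.inl rfl) he') (GSN_key H (p₁ := 1) (p₂ := 1) ((hX r v rr rv 1 e').2.2.2.1 hrv)
      (Commute.one_left _) (Commute.one_left _) (Commute.one_left _) (Commute.one_left _) (Commute.one_left _)
      (Commute.one_left _) (Commute.one_left _) (hpc m₁ r 1 rQ1 rr (kQu _ d1)).symm (hpc m₂ r 1 rQ2 rr (kQu _ d2)).symm
      (hpc m₂ _ _ rQ2 rw' (kQw _ d2)) ?_ hQH)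
    rw [one_mul, mul_one]
    exact hrH
  | add r s w _ _ h ih1 ih2 =>
    obtain ⟨hrs, rfl⟩ := h
    obtain ⟨rr, hrH⟩ := ih1
    obtain ⟨rs, hsH⟩ := ih2
    have rw' : ip C6 (r + s) (r + s) = 2 := (add_root_iff rr rs).2 hrs
    refine ⟨rw', ?_⟩
    refine hone _ rw' _ (hsg 1 1 r s (Or.inl rfl) (Or.inl rfl)) (GSN_key H (p₁ := 1) (p₂ := 1) (q₁ := 1) (q₂ := 1)
      ((hX r s rr rs 1 1).2.2.2.1 hrs)
      (Commute.one_left _) (Commute.one_left _) (Commute.one_left _) (Commute.one_left _) (Commute.one_left _)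
      (Commute.one_left _) (Commute.one_left _) (Commute.one_right _) (Commute.one_right _) (Commute.one_left _) ?_ ?_)
    · rw [one_mul, mul_one]
      exact hrH
    · rw [one_mul, mul_one]
      exact hsH
  | one P₁ P₂ u hP htrue _ ih =>
    obtain ⟨ru, l₁, l₂, e, he, hPH, a1, a2⟩ := hsplit _ _ _ hP
    refine ⟨ru, hone _ ru e he ?_⟩
    have hmem : ∀ l : List ((Fin 6 → ℤ) × K), (∀ q ∈ l, ∃ p ∈ P₁ ++ P₂, q.1 = p.1 ∧ (p.2 = true → q.2 = 1 ∨ q.2 = -1)) →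
        pq6 c l ∈ H := by
      intro l hl
      unfold pq6
      refine Subgroup.list_prod_mem H fun x hx => ?_
      obtain ⟨q, hq, rfl⟩ := List.mem_map.1 hx
      obtain ⟨p, hp, h1, h2⟩ := hl q hq
      rw [h1]
      exact hone' _ (ih p hp).1 _ (h2 (htrue p hp)) (ih p hp).2
    have h1 := hmem l₁ fun q hq => by
      obtain ⟨-, p, hp, h1, h2⟩ := a1 q hq
      exact ⟨p, List.mem_append_left _ hp, h1, h2⟩
    have h2 := hmem l₂ fun q hq => by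
      obtain ⟨-, p, hp, h1, h2⟩ := a2 q hq
      exact ⟨p, List.mem_append_right _ hp, h1, h2⟩
    have h3 : XP6 c u e = (pq6 c l₁)⁻¹ * (pq6 c l₁ * (XP6 c u e * pq6 c l₂)) * (pq6 c l₂)⁻¹ := by
      group
    rw [h3]
    exact H.mul_mem (H.mul_mem (H.inv_mem h1) hPH) (H.inv_mem h2)
  | yy r a w _ h ih =>
    exact absurd h.1 (List.not_mem_nil)

end Pool.Agent.EXT
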