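import Pool.Agent.helper17.GFG.Spec

/-!
# Project GFG (MP_561ff4_al), row KSQ: sums of two squares
-/

set_option autoImplicit false

open Finset

namespace Pool.Agent.EXT

open Pool.Agent.EXC

open Polynomial in
theorem KSQ_two {K : Type} [Field K] [Finite K] (u : K) : ∃ a b : K, a ^ 2 + b ^ 2 = u := by
  have := Fintype.ofFinite K
  by_cases h2 : ringChar K = 2
  · obtain ⟨r, hr⟩ := FiniteField.isSquare_of_char_two h2 u
    exact ⟨r, 0, by rw [hr]; ring⟩
  · have hodd : Fintype.card K % 2 = 1 := FiniteField.odd_card_of_char_ne_two h2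
    have hf : degree (X ^ 2 : K[X]) = 2 := by simp
    have hg : degree (X ^ 2 - C u : K[X]) = 2 := degree_X_pow_sub_C (by norm_num) u
    obtain ⟨a, b, hab⟩ := FiniteField.exists_root_sum_quadratic hf hg hodd
    refine ⟨a, b, ?_⟩
    simp only [eval_pow, eval_X, eval_sub, eval_C] at hab
    linear_combination hab

theorem KSQ : KSQ_stmt := by
  intro F _ _ k hk A hA
  rw [AddSubgroup.eq_top_iff']
  intro z
  obtain ⟨a, b, hab⟩ := KSQ_two (z / k)
  have h1 : z = k * a ^ 2 + k * b ^ 2 := by
    rw [← mul_add, hab, mul_div_cancel₀ _ hk]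
  rw [h1]
  exact A.add_mem (hA a) (hA b)

end Pool.Agent.EXT
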