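import Pool.Agent.helper17.GFG.Spec

/-!
# Project GFG (MP_561ff4_al), row KXC: the calculus of the scaled root elements
-/

set_option autoImplicit false

open Finset

namespace Pool.Agent.EXT

open Pool.Agent.EXC

theorem KXC_ch (α β : Fin 6 → ℤ) : ch6 (α + β) = ch6 α + ch6 β := by
  unfold ch6
  rw [Pi.add_apply, Pi.add_apply]
  ring

theorem KXC : KXC_stmt := by
  intro K _ c hc α β hα hβ s t
  obtain ⟨-, h2, h3, h4⟩ := k_GXC 6 C6 K hb6 α β hα hβ (s * c ^ ch6 α) (t * c ^ ch6 β)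
  have h1 := (k_GXC 6 C6 K hb6 α α hα hα (s * c ^ ch6 α) (t * c ^ ch6 α)).1
  refine ⟨?_, ?_, h3, fun h => ?_, ?_, ?_⟩
  · unfold XP6
    rw [add_mul]
    exact h1
  · unfold XP6
    rw [zero_mul]
    exact h2
  · unfold XP6
    rw [h4 h, KXC_ch, zpow_add₀ hc]
    congr 2
    ring
  · unfold XP6
    rw [(g_XG K α hα (s * c ^ ch6 α)).2.2, neg_mul]
  · unfold XP6
    rw [one_zpow, mul_one]

end Pool.Agent.EXT
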